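import Pool.Agent.H48.ER.Targets

/-!
Row EVN of the board er_modules (`MP_816b90_co`): parity of the rungs of a prism.
-/

set_option autoImplicit false

open Pool.Agent.H48.ER

namespace Pool.Agent.H98.ER

theorem pf_EVN (hHOL : T_HOL) : T_EVN := by
  intro V G a b n P hG hP
  have key : ∀ i j, Even (n i + n j) := by
    intro i j
    by_cases h : i = j
    · subst h
      exact ⟨n i, rfl⟩
    · refine hHOL V G (n i) (n j) (a i) (b i) (a j) (b j) (P i) (P j) hG (hP.ip i) (hP.ip j)
        (hP.dis i j h) (hP.adj i j h) ?_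
      have h1 := hP.pos i
      have h2 := hP.pos j
      omega
  refine ⟨key, fun hN i => ?_⟩
  by_contra hi
  rw [Nat.not_even_iff_odd] at hi
  refine hN a b n P hP fun j => ?_
  have h1 := key i j
  rw [Nat.even_add] at h1
  by_contra hj
  rw [Nat.not_odd_iff_even] at hj
  exact (Nat.not_even_iff_odd.mpr hi) (h1.mpr hj)

end Pool.Agent.H98.ER
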