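import Pool.Agent.H48.ER.Targets

/-!
Row TPN of the board er_modules (`MP_816b90_co`): contraction if the neighbourhood of a vertex is a
path with three vertices.
-/

set_option autoImplicit false

open Pool.Agent.H48.ER

namespace Pool.Agent.H98.ER

/-- a vertex of a chordless path which is adjacent to both ends -/
theorem eq_two {V : Type} {G : SimpleGraph V} {n : ℕ} {x z v : V} {R : Set V}
    (h : IP G n x z R) (hv : v ∈ R) (h1 : G.Adj v x) (h2 : G.Adj v z) : n = 2 := by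
  obtain ⟨g, g0, gn, gi, ga, hR⟩ := h
  rw [hR] at hv
  obtain ⟨i, hi, rfl⟩ := hv
  rw [← g0] at h1
  rw [← gn] at h2
  have e1 := (ga i 0 hi (Nat.zero_le _)).1 h1
  have e2 := (ga i n hi le_rfl).1 h2
  omega

theorem not_mem_ver (hDEG : T_DEG) {V : Type} {G : SimpleGraph V} {a b : Fin 3 → V}
    {n : Fin 3 → ℕ} {P : Fin 3 → Set V} (hP : Prism G a b n P) {v x y : V}
    (hv : ∀ w, G.Adj v w → w = x ∨ w = y) (hxy : G.Adj x y) : v ∉ ver P := by
  intro hver
  have key : ∀ u w, G.Adj v u → G.Adj v w → u ≠ w → G.Adj u w := by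
    intro u w hu hw huw
    rcases hv u hu with rfl | rfl <;> rcases hv w hw with rfl | rfl
    · exact absurd rfl huw
    · exact hxy
    · exact hxy.symm
    · exact absurd rfl huw
  obtain ⟨d1, d2, d3⟩ := hDEG V G a b n P hP
  obtain ⟨i, hi⟩ := hver
  obtain ⟨j, hj⟩ : ∃ j : Fin 3, j ≠ i := exists_ne i
  by_cases hva : v = a i
  · subst hva
    obtain ⟨r, hr, hra, hn⟩ := d1 i
    have n1 : G.Adj (a i) r := (hn r (mem_ver hr)).2 (Or.inl rfl)
    have n2 : G.Adj (a i) (a j) := (hn (a j) (mem_ver (hP.a_mem j))).2 (Or.inr ⟨j, hj, rfl⟩)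
    have hne : r ≠ a j := hP.ne_of_mem hj.symm hr (hP.a_mem j)
    have h3 := key r (a j) n1 n2 hne
    rcases (hP.adj i j hj.symm r hr (a j) (hP.a_mem j)).1 h3 with h | h
    · exact hra h.1
    · exact hP.a_ne_b j j h.2
  by_cases hvb : v = b i
  · subst hvb
    obtain ⟨r, hr, hra, hn⟩ := d2 i
    have n1 : G.Adj (b i) r := (hn r (mem_ver hr)).2 (Or.inl rfl)
    have n2 : G.Adj (b i) (b j) := (hn (b j) (mem_ver (hP.b_mem j))).2 (Or.inr ⟨j, hj, rfl⟩)
    have hne : r ≠ b j := hP.ne_of_mem hj.symm hr (hP.b_mem j)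
    have h3 := key r (b j) n1 n2 hne
    rcases (hP.adj i j hj.symm r hr (b j) (hP.b_mem j)).1 h3 with h | h
    · exact hP.a_ne_b j j h.2.symm
    · exact hra h.1
  obtain ⟨u, hu, w, hw, huw, hnadj, hn⟩ := d3 i v hi hva hvb
  exact hnadj (key u w ((hn u (mem_ver hu)).2 (Or.inl rfl)) ((hn w (mem_ver hw)).2 (Or.inr rfl))
    huw)

theorem pf_TPN (hDEG : T_DEG) (hW1 : T_W1) (hW2 : T_W2) : T_TPN := by
  intro V G v x y z hG hN hv hxy hyz hxz hnxz
  have vx : G.Adj v x := (hv x).2 (Or.inl rfl)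
  have vy : G.Adj v y := (hv y).2 (Or.inr (Or.inl rfl))
  have vz : G.Adj v z := (hv z).2 (Or.inr (Or.inr rfl))
  have hE : EvP G x z := by
    refine ⟨hxz, hnxz, fun n R hR => ?_⟩
    by_cases hvR : v ∈ R
    · rw [eq_two hR hvR vx vz]
      exact even_two
    by_cases hyR : y ∈ R
    · rw [eq_two hR hyR hxy.symm hyz]
      exact even_two
    have h0 : n ≠ 0 := by
      rintro rfl
      exact hxz hR.eq_of_zero.1
    have h1 : n ≠ 1 := fun h => hnxz (hR.adj_iff.2 h)
    refine hG n x z v R hR (by omega) hvR vx vz fun w hw hvw => ?_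
    rcases (hv w).1 hvw with h | h | h
    · exact Or.inl h
    · exact absurd (h ▸ hw) hyR
    · exact Or.inr h
  refine ⟨hE, fun a b n P hP hodd => ?_⟩
  have hyx : y ≠ z := hyz.ne
  have hvP : v ∉ ver P := by
    refine not_mem_ver hDEG hP (x := x) (y := y) (fun w hw => ?_) ?_
    · rw [ctr_adj] at hw
      obtain ⟨h1, h2, h3, h4 | h4 | h4⟩ := hw
      · rcases (hv w).1 h4 with h | h | h
        · exact Or.inl h
        · exact Or.inr h
        · exact absurd h h3
      · exact absurd h4.1 vx.ne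
      · exact Or.inl h4.1
    · rw [ctr_adj]
      exact ⟨hxy.ne, hxz, hyx, Or.inl hxy⟩
  obtain ⟨w1, w2, w3⟩ := hW1 V G x z a b n P hG hN hE hP hodd
  obtain ⟨g, hg, hgx, hvg⟩ := hW2 V G x z a b n P v hG hN hE hP hodd hvP vx vz
  rcases (hv g).1 hvg with h | h | h
  · exact hgx h
  · rw [h] at hg
    exact w3 y hg ⟨hxy, hyz.symm⟩
  · rw [h] at hg
    exact w2 hg

end Pool.Agent.H98.ER
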